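import Mathlib

/-! The Lusin-Novikov theorem: a countable-to-one Borel map is injective on each piece of a
countable Borel cover. -/

set_option autoImplicit false

open Set MeasureTheory Topology Filter Function

namespace Pool.Agent.Lib.helper86

theorem analytic_inter {α : Type*} [TopologicalSpace α] [T2Space α] {s t : Set α}
    (hs : AnalyticSet s) (ht : AnalyticSet t) : AnalyticSet (s ∩ t) := by
  have : s ∩ t = ⋂ b : Bool, (cond b s t) := by
    ext x; simp [Bool.forall_bool, and_comm]
  rw [this]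
  exact AnalyticSet.iInter (fun b => by cases b <;> simpa)

section Top

variable {X Y : Type*} [TopologicalSpace X] [T2Space X]
  [MetricSpace Y] [CompleteSpace Y] [SecondCountableTopology Y]
  [MeasurableSpace Y] [BorelSpace Y]

omit [MeasurableSpace Y] [BorelSpace Y] in
theorem analytic_bad {f : Y → X} (hf : Continuous f) {A : Set Y} (hA : AnalyticSet A) :
    AnalyticSet {y | ∃ a ∈ A, f a = f y ∧ a ≠ y} := by
  have h1 : AnalyticSet ((Prod.fst : Y × Y → Y) ⁻¹' A) := hA.preimage continuous_fst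
  have h2 : AnalyticSet {p : Y × Y | f p.1 = f p.2} :=
    (isClosed_eq (hf.comp continuous_fst) (hf.comp continuous_snd)).analyticSet
  have h3 : AnalyticSet {p : Y × Y | p.1 ≠ p.2} := by
    have : IsOpen {p : Y × Y | p.1 ≠ p.2} := isOpen_ne_fun continuous_fst continuous_snd
    simpa using this.analyticSet_image continuous_id
  have h4 := (analytic_inter h1 (analytic_inter h2 h3)).image_of_continuous continuous_snd
  convert h4 using 1
  ext y
  simp only [mem_ofPred_eq, mem_image, mem_inter_iff, mem_preimage, Prod.exists, exists_eq_right]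

theorem reflect_injOn {f : Y → X} (hf : Continuous f) {A : Set Y} (hA : AnalyticSet A)
    (hinj : InjOn f A) : ∃ B, MeasurableSet B ∧ A ⊆ B ∧ InjOn f B := by
  have d1 : Disjoint A {y | ∃ a ∈ A, f a = f y ∧ a ≠ y} := by
    rw [Set.disjoint_left]
    rintro y hy ⟨a, ha, h1, h2⟩
    exact h2 (hinj ha hy h1)
  obtain ⟨B₁, hAB₁, hd₁, hB₁⟩ := hA.measurablySeparable (analytic_bad hf hA) d1
  have d2 : Disjoint A {y | ∃ a ∈ B₁, f a = f y ∧ a ≠ y} := by
    rw [Set.disjoint_left]
    rintro y hy ⟨a, ha, h1, h2⟩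
    exact Set.disjoint_left.1 hd₁ ⟨y, hy, h1.symm, h2.symm⟩ ha
  obtain ⟨B₂, hAB₂, hd₂, hB₂⟩ := hA.measurablySeparable (analytic_bad hf hB₁.analyticSet) d2
  refine ⟨B₁ ∩ B₂, hB₁.inter hB₂, subset_inter hAB₁ hAB₂, ?_⟩
  intro a ha b hb hab
  by_contra hne
  exact Set.disjoint_left.1 hd₂ ⟨a, ha.1, hab, hne⟩ hb.2

/-- measurable sets covered by countably many measurable sets on which `f` is injective -/
def Cov (f : Y → X) (S : Set Y) : Prop :=
  MeasurableSet S ∧ ∃ C : ℕ → Set Y, (∀ n, MeasurableSet (C n) ∧ InjOn f (C n)) ∧ S ⊆ ⋃ n, C n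

omit [TopologicalSpace X] [T2Space X] [MetricSpace Y] [CompleteSpace Y]
  [SecondCountableTopology Y] [BorelSpace Y] in
theorem Cov.of_injOn {f : Y → X} {S : Set Y} (hS : MeasurableSet S) (h : InjOn f S) : Cov f S :=
  ⟨hS, fun _ => S, fun _ => ⟨hS, h⟩, subset_iUnion (fun _ : ℕ => S) 0⟩

omit [TopologicalSpace X] [T2Space X] [MetricSpace Y] [CompleteSpace Y]
  [SecondCountableTopology Y] [BorelSpace Y] in
theorem Cov.iUnion {f : Y → X} {ι : Type*} [Countable ι] {S : ι → Set Y}
    (h : ∀ i, Cov f (S i)) : Cov f (⋃ i, S i) := by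
  refine ⟨MeasurableSet.iUnion fun i => (h i).1, ?_⟩
  choose C hC hSC using fun i => (h i).2
  cases isEmpty_or_nonempty ι with
  | inl he => exact ⟨fun _ => ∅, fun _ => ⟨MeasurableSet.empty, injOn_empty _⟩, by simp⟩
  | inr hne =>
    obtain ⟨e, he⟩ := exists_surjective_nat (ι × ℕ)
    refine ⟨fun n => C (e n).1 (e n).2, fun n => hC _ _, ?_⟩
    intro y hy
    obtain ⟨i, hi⟩ := mem_iUnion.1 hy
    obtain ⟨n, hn⟩ := mem_iUnion.1 (hSC i hi)
    obtain ⟨m, hm⟩ := he (i, n)
    exact mem_iUnion.2 ⟨m, by simpa [hm] using hn⟩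

omit [TopologicalSpace X] [T2Space X] [MetricSpace Y] [CompleteSpace Y]
  [SecondCountableTopology Y] [BorelSpace Y] in
theorem Cov.union {f : Y → X} {S T : Set Y} (hS : Cov f S) (hT : Cov f T) : Cov f (S ∪ T) := by
  have : S ∪ T = ⋃ b : Bool, (cond b S T) := by
    ext x; simp [Bool.exists_bool, or_comm]
  rw [this]
  exact Cov.iUnion (fun b => by cases b <;> simpa)

/-- a family of sets whose images keep a common point after removal of any covered set -/
def Large (f : Y → X) {κ : Type} (A : κ → Set Y) : Prop :=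
  ∀ S, Cov f S → ∃ x, ∀ i, ∃ y ∈ A i, y ∉ S ∧ f y = x

theorem split_one {f : Y → X} (hf : Continuous f) {κ : Type} [Countable κ] [DecidableEq κ]
    {A : κ → Set Y} (hA : ∀ i, IsOpen (A i)) (hL : Large f A) {j k : κ} (hjk : j ≠ k)
    (heq : A j = A k) {ε : ℝ} (hε : 0 < ε) :
    ∃ U V : Set Y, IsOpen U ∧ IsOpen V ∧ Disjoint (closure U) (closure V) ∧
      (∀ a ∈ U, ∀ b ∈ U, dist a b ≤ ε) ∧ (∀ a ∈ V, ∀ b ∈ V, dist a b ≤ ε) ∧
      Large f (update (update A j (A j ∩ U)) k (A k ∩ V)) := by
  by_contra hcon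
  push Not at hcon
  let B := TopologicalSpace.countableBasis Y
  have hBc : B.Countable := TopologicalSpace.countable_countableBasis Y
  have hB : TopologicalSpace.IsTopologicalBasis B := TopologicalSpace.isBasis_countableBasis Y
  let T : Set (Set Y × Set Y) := {p | p.1 ∈ B ∧ p.2 ∈ B ∧ Disjoint (closure p.1) (closure p.2) ∧
      (∀ a ∈ p.1, ∀ b ∈ p.1, dist a b ≤ ε) ∧ (∀ a ∈ p.2, ∀ b ∈ p.2, dist a b ≤ ε)}
  have hTc : T.Countable := (hBc.prod hBc).mono (fun p hp => mem_prod.2 ⟨hp.1, hp.2.1⟩)
  have : Countable T := hTc.to_subtype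
  have key : ∀ p : T, ∃ S, Cov f S ∧ ∀ x, ∃ i, ∀ y ∈
      (update (update A j (A j ∩ p.1.1)) k (A k ∩ p.1.2)) i, y ∉ S → f y ≠ x := by
    intro p
    have := hcon p.1.1 p.1.2 (hB.isOpen p.2.1) (hB.isOpen p.2.2.1) p.2.2.2.1 p.2.2.2.2.1
      p.2.2.2.2.2
    unfold Large at this
    push Not at this
    exact this
  choose S hS hS' using key
  have hC : Cov f (⋃ p, S p) := Cov.iUnion hS
  set C := ⋃ p, S p with hCdef
  have : Nonempty κ := ⟨j⟩
  have hBan : AnalyticSet (⋂ i, f '' (A i \ C)) :=
    AnalyticSet.iInter fun i =>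
      ((hA i).measurableSet.diff hC.1).analyticSet.image_of_continuous hf
  have hAs : AnalyticSet ((A j \ C) ∩ f ⁻¹' (⋂ i, f '' (A i \ C))) :=
    analytic_inter ((hA j).measurableSet.diff hC.1).analyticSet (hBan.preimage hf)
  have hinj : InjOn f ((A j \ C) ∩ f ⁻¹' (⋂ i, f '' (A i \ C))) := by
    intro a ha b hb hab
    by_contra hne
    have hd : 0 < dist a b := dist_pos.2 hne
    set r := min (ε / 2) (dist a b / 3) with hr
    have hr0 : 0 < r := lt_min (by linarith) (by linarith)
    have hr1 : r ≤ ε / 2 := min_le_left _ _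
    have hr2 : r ≤ dist a b / 3 := min_le_right _ _
    obtain ⟨U, hU, haU, hUs⟩ := hB.exists_subset_of_mem_open (Metric.mem_ball_self hr0 :
      a ∈ Metric.ball a r) Metric.isOpen_ball
    obtain ⟨V, hV, hbV, hVs⟩ := hB.exists_subset_of_mem_open (Metric.mem_ball_self hr0 :
      b ∈ Metric.ball b r) Metric.isOpen_ball
    have small : ∀ (c : Y) (W : Set Y), W ⊆ Metric.ball c r → ∀ u ∈ W, ∀ v ∈ W, dist u v ≤ ε := by
      intro c W hW u hu v hv
      have h1 := Metric.mem_ball.1 (hW hu)
      have h2 := Metric.mem_ball.1 (hW hv)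
      have := dist_triangle_right u v c
      linarith
    have hdisj : Disjoint (closure U) (closure V) := by
      have h1 : closure U ⊆ Metric.closedBall a r :=
        closure_minimal (hUs.trans Metric.ball_subset_closedBall) Metric.isClosed_closedBall
      have h2 : closure V ⊆ Metric.closedBall b r :=
        closure_minimal (hVs.trans Metric.ball_subset_closedBall) Metric.isClosed_closedBall
      exact (Metric.closedBall_disjoint_closedBall (by linarith)).mono h1 h2
    let p : T := ⟨(U, V), hU, hV, hdisj, small a U hUs, small b V hVs⟩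
    have hsub : S p ⊆ C := subset_iUnion S p
    obtain ⟨i, hi⟩ := hS' p (f a)
    by_cases hik : i = k
    · subst hik
      refine hi b ?_ (fun h => hb.1.2 (hsub h)) hab.symm
      rw [update_self]
      exact ⟨heq ▸ hb.1.1, hbV⟩
    · rw [update_of_ne hik] at hi
      by_cases hij : i = j
      · subst hij
        refine hi a ?_ (fun h => ha.1.2 (hsub h)) rfl
        rw [update_self]
        exact ⟨ha.1.1, haU⟩
      · rw [update_of_ne hij] at hi
        obtain ⟨y, hy, hfy⟩ := mem_iInter.1 ha.2 i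
        exact hi y hy.1 (fun h => hy.2 (hsub h)) hfy
  obtain ⟨D, hD, hAD, hDinj⟩ := reflect_injOn hf hAs hinj
  obtain ⟨x, hx⟩ := hL (C ∪ D) (hC.union (Cov.of_injOn hD hDinj))
  obtain ⟨y, hy, hyn, hfy⟩ := hx j
  apply hyn
  right
  apply hAD
  refine ⟨⟨hy, fun h => hyn (Or.inl h)⟩, ?_⟩
  rw [mem_preimage, hfy]
  refine mem_iInter.2 fun i => ?_
  obtain ⟨z, hz, hzn, hfz⟩ := hx i
  exact ⟨z, ⟨hz, fun h => hzn (Or.inl h)⟩, hfz⟩

theorem split_all {f : Y → X} (hf : Continuous f) {κ : Type} [Finite κ]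
    {A : κ → Set Y} (hA : ∀ i, IsOpen (A i)) (hL : Large f A) {ε : ℝ} (hε : 0 < ε) :
    ∃ B : Bool × κ → Set Y, (∀ p, IsOpen (B p)) ∧ Large f B ∧ (∀ b i, B (b, i) ⊆ A i) ∧
      (∀ p, ∀ u ∈ B p, ∀ v ∈ B p, dist u v ≤ ε) ∧
      (∀ i, Disjoint (closure (B (true, i))) (closure (B (false, i)))) := by
  classical
  have main : ∀ s : Finset κ, ∃ B : Bool × κ → Set Y, (∀ p, IsOpen (B p)) ∧ Large f B ∧
      (∀ b i, B (b, i) ⊆ A i) ∧ (∀ b i, i ∉ s → B (b, i) = A i) ∧
      (∀ b, ∀ i ∈ s, ∀ u ∈ B (b, i), ∀ v ∈ B (b, i), dist u v ≤ ε) ∧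
      (∀ i ∈ s, Disjoint (closure (B (true, i))) (closure (B (false, i)))) := by
    intro s
    induction s using Finset.induction_on with
    | empty =>
      refine ⟨fun p => A p.2, fun p => hA _, ?_, fun _ _ => subset_rfl, fun _ _ _ => rfl,
        by simp, by simp⟩
      intro S hS
      obtain ⟨x, hx⟩ := hL S hS
      exact ⟨x, fun p => hx p.2⟩
    | insert j s hjs ih =>
      obtain ⟨B, hBo, hBL, hBA, hBeq, hBd, hBdis⟩ := ih
      have hne : ((true, j) : Bool × κ) ≠ (false, j) := by simp
      have heq : B (true, j) = B (false, j) := by rw [hBeq _ _ hjs, hBeq _ _ hjs]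
      obtain ⟨U, V, hU, hV, hUV, hUd, hVd, hL'⟩ := split_one hf hBo hBL hne heq hε
      set B' := update (update B (true, j) (B (true, j) ∩ U)) (false, j) (B (false, j) ∩ V)
        with hB'
      have e1 : B' (true, j) = B (true, j) ∩ U := by
        rw [hB', update_of_ne hne, update_self]
      have e2 : B' (false, j) = B (false, j) ∩ V := by
        rw [hB', update_self]
      have e3 : ∀ b i, i ≠ j → B' (b, i) = B (b, i) := by
        intro b i hi
        rw [hB', update_of_ne (by simp [hi]), update_of_ne (by simp [hi])]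
      refine ⟨B', ?_, hL', ?_, ?_, ?_, ?_⟩
      · rintro ⟨b, i⟩
        by_cases hi : i = j
        · subst hi
          cases b
          · rw [e2]; exact (hBo _).inter hV
          · rw [e1]; exact (hBo _).inter hU
        · rw [e3 b i hi]; exact hBo _
      · intro b i
        by_cases hi : i = j
        · subst hi
          cases b
          · rw [e2]; exact inter_subset_left.trans (hBA _ _)
          · rw [e1]; exact inter_subset_left.trans (hBA _ _)
        · rw [e3 b i hi]; exact hBA _ _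
      · intro b i hi
        rw [Finset.mem_insert, not_or] at hi
        rw [e3 b i hi.1]; exact hBeq _ _ hi.2
      · intro b i hi
        by_cases hij : i = j
        · subst hij
          cases b
          · rw [e2]; exact fun u hu v hv => hVd u hu.2 v hv.2
          · rw [e1]; exact fun u hu v hv => hUd u hu.2 v hv.2
        · rw [e3 b i hij]
          exact hBd b i ((Finset.mem_insert.1 hi).resolve_left hij)
      · intro i hi
        by_cases hij : i = j
        · subst hij
          rw [e1, e2]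
          exact hUV.mono (closure_mono inter_subset_right) (closure_mono inter_subset_right)
        · rw [e3 _ i hij, e3 _ i hij]
          exact hBdis i ((Finset.mem_insert.1 hi).resolve_left hij)
  have := Fintype.ofFinite κ
  obtain ⟨B, h1, h2, h3, -, h5, h6⟩ := main Finset.univ
  exact ⟨B, h1, h2, h3, fun p => h5 p.1 p.2 (Finset.mem_univ _), fun i => h6 i (Finset.mem_univ _)⟩

/-- binary words of length `n` -/
def Word : ℕ → Type
  | 0 => Unit
  | n + 1 => Bool × Word n

theorem finite_word : ∀ n, Finite (Word n)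
  | 0 => inferInstanceAs (Finite Unit)
  | n + 1 => by
    have := finite_word n
    exact inferInstanceAs (Finite (Bool × Word n))

/-- restriction of a binary sequence -/
def resW (x : ℕ → Bool) : ∀ n, Word n
  | 0 => ()
  | n + 1 => (x n, resW x n)

theorem resW_congr {x y : ℕ → Bool} : ∀ n, (∀ m < n, x m = y m) → resW x n = resW y n
  | 0, _ => rfl
  | n + 1, h => by
    have h1 := resW_congr n (fun m hm => h m (Nat.lt_succ_of_lt hm))
    have h2 := h n (Nat.lt_succ_self n)
    change ((x n, resW x n) : Bool × Word n) = (y n, resW y n)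
    rw [h1, h2]

theorem lusin_novikov_cont {f : Y → X} (hf : Continuous f)
    (hc : ∀ x, (f ⁻¹' {x}).Countable) :
    ∃ C : ℕ → Set Y, (∀ n, MeasurableSet (C n) ∧ InjOn f (C n)) ∧ ⋃ n, C n = univ := by
  by_contra hcon
  have h0 : Large f (fun _ : Word 0 => (univ : Set Y)) := by
    intro S hS
    obtain ⟨-, C, hC, hSC⟩ := hS
    have : ∃ y, y ∉ S := by
      by_contra h
      push Not at h
      exact hcon ⟨C, hC, eq_univ_of_forall fun y => hSC (h y)⟩
    obtain ⟨y, hy⟩ := this
    exact ⟨f y, fun _ => ⟨y, mem_univ _, hy, rfl⟩⟩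
  have step : ∀ n, ∀ A : {A : Word n → Set Y // (∀ i, IsOpen (A i)) ∧ Large f A},
      ∃ B : {A : Word (n + 1) → Set Y // (∀ i, IsOpen (A i)) ∧ Large f A},
        (∀ b i, B.1 (b, i) ⊆ A.1 i) ∧
        (∀ p, ∀ u ∈ B.1 p, ∀ v ∈ B.1 p, dist u v ≤ 1 / ((n : ℝ) + 1)) ∧
        (∀ i, Disjoint (closure (B.1 (true, i))) (closure (B.1 (false, i)))) := by
    intro n A
    have := finite_word n
    obtain ⟨B, h1, h2, h3, h4, h5⟩ := split_all hf A.2.1 A.2.2
      (Nat.one_div_pos_of_nat : (0 : ℝ) < 1 / ((n : ℝ) + 1))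
    exact ⟨⟨B, h1, h2⟩, h3, h4, h5⟩
  choose nxt hsub hdiam hdisj using step
  let F : ∀ n, {A : Word n → Set Y // (∀ i, IsOpen (A i)) ∧ Large f A} := fun n =>
    Nat.rec ⟨fun _ => univ, fun _ => isOpen_univ, h0⟩ (fun n A => nxt n A) n
  have hF : ∀ n, F (n + 1) = nxt n (F n) := fun n => rfl
  have hpt : ∀ n, ∃ x, ∀ i, ∃ y ∈ (F n).1 i, f y = x := by
    intro n
    obtain ⟨x, hx⟩ := (F n).2.2 ∅ (Cov.of_injOn MeasurableSet.empty (injOn_empty _))
    exact ⟨x, fun i => by obtain ⟨y, h1, -, h3⟩ := hx i; exact ⟨y, h1, h3⟩⟩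
  choose x y hy hfy using hpt
  have anti : ∀ α : ℕ → Bool, Antitone (fun n => (F n).1 (resW α n)) := by
    intro α
    refine antitone_nat_of_succ_le fun n => ?_
    exact hsub n (F n) (α n) (resW α n)
  have cauchy : ∀ α : ℕ → Bool, CauchySeq (fun n => y n (resW α n)) := by
    intro α
    rw [Metric.cauchySeq_iff]
    intro ε hε
    obtain ⟨N, hN⟩ := exists_nat_one_div_lt hε
    refine ⟨N + 1, fun m hm n hn => lt_of_le_of_lt ?_ hN⟩
    exact hdiam N (F N) (resW α (N + 1)) _ (anti α hm (hy m _)) _ (anti α hn (hy n _))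
  choose z hz using fun α => cauchySeq_tendsto_of_complete (cauchy α)
  have hfz : ∀ α, Tendsto x atTop (𝓝 (f (z α))) := by
    intro α
    have := (hf.tendsto _).comp (hz α)
    refine this.congr fun n => ?_
    exact hfy n _
  have hcl : ∀ α n, z α ∈ closure ((F n).1 (resW α n)) := by
    intro α n
    refine mem_closure_of_tendsto (hz α) ?_
    filter_upwards [eventually_ge_atTop n] with m hm
    exact anti α hm (hy m _)
  have hinj : Injective z := by
    intro α β hαβ
    by_contra hne
    have hex : ∃ n, α n ≠ β n := by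
      by_contra h
      push Not at h
      exact hne (funext h)
    classical
    let n := Nat.find hex
    have hn : α n ≠ β n := Nat.find_spec hex
    have hres : resW α n = resW β n := resW_congr n fun m hm => by
      have := Nat.find_min hex hm
      simpa using this
    have h1 : z α ∈ closure ((nxt n (F n)).1 (α n, resW α n)) := hcl α (n + 1)
    have h2 : z α ∈ closure ((nxt n (F n)).1 (β n, resW α n)) := by
      rw [hαβ, hres]; exact hcl β (n + 1)
    have hd := hdisj n (F n) (resW α n)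
    cases ha : α n <;> cases hb : β n
    · exact hn (ha.trans hb.symm)
    · rw [ha] at h1; rw [hb] at h2
      exact Set.disjoint_left.1 hd h2 h1
    · rw [ha] at h1; rw [hb] at h2
      exact Set.disjoint_left.1 hd h1 h2
    · exact hn (ha.trans hb.symm)
  have hcount : (univ : Set (ℕ → Bool)).Countable := by
    have : (univ : Set (ℕ → Bool)) = z ⁻¹' (f ⁻¹' {f (z (fun _ => true))}) := by
      symm
      refine eq_univ_of_forall fun α => ?_
      exact tendsto_nhds_unique (hfz α) (hfz _)
    rw [this]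
    exact (hc _).preimage hinj
  have : Countable (ℕ → Bool) := countable_univ_iff.1 hcount
  obtain ⟨e, he⟩ := exists_surjective_nat (ℕ → Bool)
  obtain ⟨n, hn⟩ := he (fun n => !(e n n))
  have := congrFun hn n
  simp at this

end Top

/-- The Lusin-Novikov theorem for standard Borel spaces. -/
theorem lusin_novikov {X Y : Type*} [MeasurableSpace X] [StandardBorelSpace X]
    [MeasurableSpace Y] [StandardBorelSpace Y] {f : Y → X} (hf : Measurable f)
    (hc : ∀ x, (f ⁻¹' {x}).Countable) :
    ∃ C : ℕ → Set Y, (∀ n, MeasurableSet (C n) ∧ InjOn f (C n)) ∧ ⋃ n, C n = univ := by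
  let := upgradeStandardBorel X
  obtain ⟨t', hcont, hpol, hb⟩ : ∃ t' : TopologicalSpace Y, Continuous[t', _] f ∧
      @PolishSpace Y t' ∧ @BorelSpace Y t' _ := by
    let uY := upgradeStandardBorel Y
    have hp : @PolishSpace Y uY.toTopologicalSpace := inferInstance
    obtain ⟨t', hle, hcont, hpol⟩ := hf.exists_continuous
    refine ⟨t', hcont, hpol, @BorelSpace.mk Y t' _ ?_⟩
    rw [eq_borel_upgradeStandardBorel Y]
    exact (borel_eq_borel_of_le hpol hp hle).symm
  let := TopologicalSpace.upgradeIsCompletelyMetrizable Y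
  exact lusin_novikov_cont hcont hc

end Pool.Agent.Lib.helper86
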