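import Mathlib
import Pool.Agent.Lib.helper86.LusinNovikov

/-! The Feldman-Moore theorem, change of topology for Borel actions, and a class preserving
measurable Schroeder-Bernstein theorem. -/

set_option autoImplicit false

open Set MeasureTheory Topology Filter Function

namespace Pool.Agent.Lib.helper86

theorem measurable_of_graph {X Y : Type*} [MeasurableSpace X] [StandardBorelSpace X]
    [MeasurableSpace Y] [StandardBorelSpace Y] {g : X → Y}
    (h : MeasurableSet {p : X × Y | g p.1 = p.2}) : Measurable g := by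
  intro B hB
  have h1 : MeasurableSet ({p : X × Y | g p.1 = p.2} ∩ Prod.snd ⁻¹' B) :=
    h.inter (measurable_snd hB)
  have h2 := h1.image_of_measurable_injOn measurable_fst (by
    rintro ⟨a, b⟩ hp ⟨c, d⟩ hq hac
    have h1 : g a = b := hp.1
    have h2 : g c = d := hq.1
    have h3 : a = c := hac
    rw [← h1, ← h2, h3])
  convert h2 using 1
  ext x
  constructor
  · intro hx
    exact ⟨(x, g x), ⟨rfl, hx⟩, rfl⟩
  · rintro ⟨⟨a, b⟩, ⟨h1, h2⟩, rfl⟩
    have h1 : g a = b := h1
    have h2 : b ∈ B := h2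
    rw [mem_preimage, h1]
    exact h2

theorem exists_involution {X : Type*} [MeasurableSpace X] [StandardBorelSpace X]
    {R : Set (X × X)} (hR : MeasurableSet R) (h1 : InjOn Prod.fst R) (h2 : InjOn Prod.snd R)
    (hd : ∀ p ∈ R, ∀ q ∈ R, p.1 ≠ q.2) :
    ∃ g : X → X, Measurable g ∧ Involutive g ∧ (∀ p ∈ R, g p.1 = p.2) ∧
      ∀ x, g x = x ∨ (x, g x) ∈ R ∨ (g x, x) ∈ R := by
  let Γ : X → X → Prop := fun x y => (x, y) ∈ R ∨ (y, x) ∈ R ∨
    (x = y ∧ x ∉ Prod.fst '' R ∧ x ∉ Prod.snd '' R)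
  have hsymm : ∀ x y, Γ x y → Γ y x := by
    rintro x y (h | h | ⟨rfl, h⟩)
    · exact Or.inr (Or.inl h)
    · exact Or.inl h
    · exact Or.inr (Or.inr ⟨rfl, h⟩)
  have hex : ∀ x, ∃ y, Γ x y := by
    intro x
    by_cases ha : x ∈ Prod.fst '' R
    · obtain ⟨⟨a, b⟩, hp, rfl⟩ := ha
      exact ⟨b, Or.inl hp⟩
    by_cases hb : x ∈ Prod.snd '' R
    · obtain ⟨⟨a, b⟩, hp, rfl⟩ := hb
      exact ⟨a, Or.inr (Or.inl hp)⟩
    exact ⟨x, Or.inr (Or.inr ⟨rfl, ha, hb⟩)⟩
  have huniq : ∀ x y z, Γ x y → Γ x z → y = z := by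
    rintro x y z (h | h | ⟨rfl, h⟩) (h' | h' | ⟨e, h'⟩)
    · exact congrArg Prod.snd (h1 h h' rfl)
    · exact absurd rfl (hd _ h _ h')
    · exact absurd ⟨_, h, rfl⟩ h'.1
    · exact absurd rfl (hd _ h' _ h)
    · exact congrArg Prod.fst (h2 h h' rfl)
    · exact absurd ⟨_, h, rfl⟩ h'.2
    · exact absurd ⟨_, h', rfl⟩ h.1
    · exact absurd ⟨_, h', rfl⟩ h.2
    · exact e
  choose g hg using hex
  refine ⟨g, ?_, fun x => huniq _ _ _ (hg (g x)) (hsymm _ _ (hg x)),
    fun p hp => huniq _ _ _ (hg _) (Or.inl hp), ?_⟩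
  · apply measurable_of_graph
    have : {p : X × X | g p.1 = p.2} = R ∪ (Prod.swap ⁻¹' R ∪ ({p : X × X | p.1 = p.2} ∩
        (Prod.fst ⁻¹' (Prod.fst '' R)ᶜ ∩ Prod.fst ⁻¹' (Prod.snd '' R)ᶜ))) := by
      ext ⟨x, y⟩
      constructor
      · intro h
        have h : g x = y := h
        subst h
        exact hg x
      · intro h
        exact huniq _ _ _ (hg x) h
    rw [this]
    refine hR.union ((measurable_swap hR).union ((measurableSet_eq_fun measurable_fst
      measurable_snd).inter ((measurable_fst ?_).inter (measurable_fst ?_))))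
    · exact (hR.image_of_measurable_injOn measurable_fst h1).compl
    · exact (hR.image_of_measurable_injOn measurable_snd h2).compl
  · intro x
    rcases hg x with h | h | h
    · exact Or.inr (Or.inl h)
    · exact Or.inr (Or.inr h)
    · exact Or.inl h.1.symm

theorem lusin_novikov_set {X Y : Type*} [MeasurableSpace X] [StandardBorelSpace X]
    [MeasurableSpace Y] [StandardBorelSpace Y] {f : Y → X} (hf : Measurable f)
    {P : Set Y} (hP : MeasurableSet P) (hc : ∀ x, (P ∩ f ⁻¹' {x}).Countable) :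
    ∃ C : ℕ → Set Y, (∀ n, MeasurableSet (C n) ∧ InjOn f (C n) ∧ C n ⊆ P) ∧ P ⊆ ⋃ n, C n := by
  have := hP.standardBorel
  obtain ⟨C, hC, hU⟩ := lusin_novikov (X := X) (Y := P) (f := fun y => f y.1)
    (hf.comp measurable_subtype_coe) (fun x => by
      have : (fun y : P => f y.1) ⁻¹' {x} = Subtype.val ⁻¹' (P ∩ f ⁻¹' {x}) := by
        ext y; simp
      rw [this]
      exact (hc x).preimage Subtype.val_injective)
  refine ⟨fun n => Subtype.val '' C n, fun n => ⟨?_, ?_, ?_⟩, ?_⟩
  · exact (MeasurableEmbedding.subtype_coe hP).measurableSet_image.2 (hC n).1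
  · rintro _ ⟨a, ha, rfl⟩ _ ⟨b, hb, rfl⟩ hab
    exact congrArg Subtype.val ((hC n).2 ha hb hab)
  · rintro _ ⟨a, _, rfl⟩
    exact a.2
  · intro y hy
    have : (⟨y, hy⟩ : P) ∈ ⋃ n, C n := hU ▸ mem_univ _
    obtain ⟨n, hn⟩ := mem_iUnion.1 this
    exact mem_iUnion.2 ⟨n, _, hn, rfl⟩

theorem feldman_moore_inv {X : Type*} [MeasurableSpace X] [StandardBorelSpace X]
    {E : X → X → Prop} (hE : Equivalence E) (hm : MeasurableSet {p : X × X | E p.1 p.2})
    (hc : ∀ x, {y | E x y}.Countable) :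
    ∃ g : ℕ × ℕ × ℕ × Bool → X → X, (∀ i, Measurable (g i) ∧ Involutive (g i) ∧
      ∀ x, E x (g i x)) ∧ ∀ x y, E x y → x ≠ y → ∃ i, g i x = y := by
  obtain ⟨C, hC, hCU⟩ := lusin_novikov_set (f := (Prod.fst : X × X → X)) measurable_fst hm
    (fun x => by
      refine ((hc x).image (fun y => (x, y))).mono ?_
      rintro ⟨a, b⟩ ⟨h1, h2⟩
      have h2 : a = x := h2
      subst h2
      exact ⟨b, h1, rfl⟩)
  obtain ⟨D, hD, hDU⟩ := lusin_novikov_set (f := (Prod.snd : X × X → X)) measurable_snd hm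
    (fun x => by
      refine ((hc x).image (fun y => (y, x))).mono ?_
      rintro ⟨a, b⟩ ⟨h1, h2⟩
      have h2 : b = x := h2
      subst h2
      exact ⟨a, hE.symm h1, rfl⟩)
  obtain ⟨e, he, hei⟩ := MeasurableSpace.measurable_injection_nat_bool_of_countablySeparated X
  let R : ℕ × ℕ × ℕ × Bool → Set (X × X) := fun i => C i.1 ∩ D i.2.1 ∩
    ({p | e p.1 i.2.2.1 = i.2.2.2} ∩ {p | e p.2 i.2.2.1 = i.2.2.2}ᶜ)
  have hme : ∀ k b, MeasurableSet {x | e x k = b} := fun k b =>
    ((measurable_pi_apply k).comp he) (measurableSet_singleton b)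
  have key : ∀ i, ∃ g : X → X, Measurable g ∧ Involutive g ∧ (∀ p ∈ R i, g p.1 = p.2) ∧
      ∀ x, g x = x ∨ (x, g x) ∈ R i ∨ (g x, x) ∈ R i := by
    intro i
    refine exists_involution ?_ ?_ ?_ ?_
    · exact ((hC _).1.inter (hD _).1).inter
        ((measurable_fst (hme _ _)).inter (measurable_snd (hme _ _)).compl)
    · exact (hC _).2.1.mono (fun p hp => hp.1.1)
    · exact (hD _).2.1.mono (fun p hp => hp.1.2)
    · intro p hp q hq hpq
      apply hq.2.2
      have := hp.2.1
      simp only [mem_ofPred_eq] at this ⊢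
      rw [← hpq]; exact this
  choose g hgm hgi hgR hgE using key
  refine ⟨g, fun i => ⟨hgm i, hgi i, fun x => ?_⟩, ?_⟩
  · rcases hgE i x with h | h | h
    · rw [h]; exact hE.refl x
    · exact (hC _).2.2 h.1.1
    · exact hE.symm ((hC _).2.2 h.1.1)
  · intro x y hxy hne
    obtain ⟨n, hn⟩ := mem_iUnion.1 (hCU (show (x, y) ∈ {p : X × X | E p.1 p.2} from hxy))
    obtain ⟨m, hm'⟩ := mem_iUnion.1 (hDU (show (x, y) ∈ {p : X × X | E p.1 p.2} from hxy))
    have : ∃ k, e x k ≠ e y k := by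
      by_contra h
      push Not at h
      exact hne (hei (funext h))
    obtain ⟨k, hk⟩ := this
    exact ⟨(n, m, k, e x k), hgR _ (x, y) ⟨⟨hn, hm'⟩, rfl, fun h => hk (Eq.symm h)⟩⟩

/-- the action of a free group generated by a family of permutations -/
theorem exists_free_action {Z I : Type*} (σ : I → Equiv.Perm Z) (P : (Z → Z) → Prop)
    (hid : P id) (hcomp : ∀ a b, P a → P b → P (a ∘ b))
    (hσ : ∀ i, P (σ i) ∧ P (σ i).symm) :
    ∃ _ : MulAction (FreeGroup I) Z, (∀ γ : FreeGroup I, P (fun z => γ • z)) ∧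
      ∀ i z, FreeGroup.of i • z = σ i z := by
  let φ : FreeGroup I →* Equiv.Perm Z := FreeGroup.lift σ
  let H : Subgroup (Equiv.Perm Z) :=
    { carrier := {τ | P τ ∧ P τ.symm}
      one_mem' := ⟨hid, hid⟩
      mul_mem' := fun {a b} ha hb => ⟨hcomp a b ha.1 hb.1, hcomp b.symm a.symm hb.2 ha.2⟩
      inv_mem' := fun {a} ha => ⟨ha.2, ha.1⟩ }
  have hH : φ.range ≤ H := FreeGroup.range_lift_le (by rintro _ ⟨i, rfl⟩; exact hσ i)
  refine ⟨MulAction.compHom Z φ, fun γ => (hH ⟨γ, rfl⟩).1, fun i z => ?_⟩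
  change φ (FreeGroup.of i) z = σ i z
  rw [FreeGroup.lift_apply_of]

/-- The Feldman-Moore theorem. -/
theorem feldman_moore {X : Type*} [MeasurableSpace X] [StandardBorelSpace X]
    {E : X → X → Prop} (hE : Equivalence E) (hm : MeasurableSet {p : X × X | E p.1 p.2})
    (hc : ∀ x, {y | E x y}.Countable) :
    ∃ _ : MulAction (FreeGroup (ℕ × ℕ × ℕ × Bool)) X,
      (∀ γ : FreeGroup (ℕ × ℕ × ℕ × Bool), Measurable (fun x : X => γ • x)) ∧
      ∀ x y, E x y ↔ ∃ γ : FreeGroup (ℕ × ℕ × ℕ × Bool), γ • x = y := by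
  obtain ⟨g, hg, hgE⟩ := feldman_moore_inv hE hm hc
  obtain ⟨inst, h1, h2⟩ := exists_free_action (fun i => (hg i).2.1.toPerm)
    (fun a => Measurable a ∧ ∀ x, E x (a x)) ⟨measurable_id, hE.refl⟩
    (fun a b ha hb => ⟨ha.1.comp hb.1, fun x => hE.trans (hb.2 x) (ha.2 _)⟩)
    (fun i => ⟨⟨(hg i).1, (hg i).2.2⟩, ⟨(hg i).1, (hg i).2.2⟩⟩)
  refine ⟨inst, fun γ => (h1 γ).1, fun x y => ⟨fun h => ?_, ?_⟩⟩
  · by_cases hxy : x = y
    · exact ⟨1, by rw [one_smul, hxy]⟩
    · obtain ⟨i, hi⟩ := hgE x y h hxy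
      exact ⟨FreeGroup.of i, by rw [h2]; exact hi⟩
  · rintro ⟨γ, rfl⟩
    exact (h1 γ).2 x

/-- a Borel action of a countable group is continuous for some compatible Polish topology -/
theorem exists_polish_continuous {X G : Type*} [MeasurableSpace X] [StandardBorelSpace X]
    [Group G] [Countable G] [MulAction G X] (hm : ∀ γ : G, Measurable (fun x : X => γ • x)) :
    ∃ _ : TopologicalSpace X, PolishSpace X ∧ BorelSpace X ∧ ContinuousConstSMul G X := by
  have step : ∀ t : {t : TopologicalSpace X // @PolishSpace X t ∧ @BorelSpace X t _},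
      ∃ t' : {t : TopologicalSpace X // @PolishSpace X t ∧ @BorelSpace X t _},
        t'.1 ≤ t.1 ∧ ∀ γ : G, Continuous[t'.1, t.1] (fun x => γ • x) := by
    rintro ⟨t, hp, hb⟩
    have hmeas : Measurable (fun (x : X) (γ : G) => γ • x) := measurable_pi_lambda _ hm
    obtain ⟨t', hle, hcont, hpol⟩ := hmeas.exists_continuous
    refine ⟨⟨t', hpol, @BorelSpace.mk X t' _ ?_⟩, hle, fun γ => ?_⟩
    · rw [hb.measurable_eq]
      exact (borel_eq_borel_of_le hpol hp hle).symm
    · exact @Continuous.comp X (G → X) X t' (@Pi.topologicalSpace G (fun _ => X) fun _ => t) t _ _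
        (@continuous_apply G (fun _ => X) (fun _ => t) γ) hcont
  choose nxt hle hcont using step
  let t0 : {t : TopologicalSpace X // @PolishSpace X t ∧ @BorelSpace X t _} :=
    let u := upgradeStandardBorel X
    ⟨u.toTopologicalSpace, inferInstance, inferInstance⟩
  let T : ℕ → {t : TopologicalSpace X // @PolishSpace X t ∧ @BorelSpace X t _} :=
    fun n => nxt^[n] t0
  have hT : ∀ n, T (n + 1) = nxt (T n) := fun n => Function.iterate_succ_apply' _ _ _
  have hle0 : ∀ n, (T n).1 ≤ (T 0).1 := by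
    intro n
    induction n with
    | zero => exact le_rfl
    | succ n ih => rw [hT]; exact (hle _).trans ih
  have hpol : @PolishSpace X (⨅ n, (T n).1) := PolishSpace.iInf ⟨0, hle0⟩ fun n => (T n).2.1
  refine ⟨⨅ n, (T n).1, hpol, @BorelSpace.mk X (⨅ n, (T n).1) _ ?_,
    @ContinuousConstSMul.mk G X (⨅ n, (T n).1) _ ?_⟩
  · rw [borel_eq_borel_of_le hpol (T 0).2.1 (iInf_le _ 0)]
    exact (@BorelSpace.measurable_eq X (T 0).1 _ (T 0).2.2)
  · intro γ
    rw [continuous_iInf_rng]
    intro n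
    have h1 := hcont (T n) γ
    rw [← hT] at h1
    exact continuous_le_dom (iInf_le _ (n + 1)) h1

/-- measurable Schroeder-Bernstein, recording that the bijection is piecewise `f` or `g⁻¹` -/
theorem measurable_schroeder_bernstein {α β : Type*} [MeasurableSpace α] [MeasurableSpace β]
    {f : α → β} {g : β → α} (hf : MeasurableEmbedding f) (hg : MeasurableEmbedding g) :
    ∃ e : α ≃ᵐ β, ∀ x, e x = f x ∨ g (e x) = x := by
  classical
  let F : Set α → Set α := fun A => (g '' (f '' A)ᶜ)ᶜ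
  have Fmono : ∀ {A B}, A ⊆ B → F A ⊆ F B := fun h =>
    compl_subset_compl.mpr <| Set.image_mono <| compl_subset_compl.mpr <| Set.image_mono h
  let X : ℕ → Set α := fun n => F^[n] univ
  have Ameas : MeasurableSet (iInter X) := by
    refine MeasurableSet.iInter fun n => ?_
    induction n with
    | zero => exact MeasurableSet.univ
    | succ n ih =>
      rw [Function.iterate_succ', Function.comp_apply]
      exact (hg.measurableSet_image' (hf.measurableSet_image' ih).compl).compl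
  have Afp : F (iInter X) = iInter X := by
    apply subset_antisymm
    · apply subset_iInter
      intro n
      cases n
      · exact subset_univ _
      rw [Function.iterate_succ', Function.comp_apply]
      exact Fmono (iInter_subset _ _)
    rintro x hx ⟨y, hy, rfl⟩
    rw [mem_iInter] at hx
    apply hy
    rw [hf.injective.injOn.image_iInter_eq]
    rw [mem_iInter]
    intro n
    specialize hx n.succ
    rw [Function.iterate_succ', Function.comp_apply] at hx
    by_contra h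
    apply hx
    exact ⟨y, h, rfl⟩
  set A := iInter X with hA
  have hAc : Aᶜ = g '' (f '' A)ᶜ := by
    apply compl_injective
    rw [compl_compl]
    exact Afp.symm
  have Bmeas : MeasurableSet (f '' A) := hf.measurableSet_image' Ameas
  let e1 : A ≃ᵐ (f '' A : Set β) := hf.equivImage A
  let e2 : ((f '' A)ᶜ : Set β) ≃ᵐ (Aᶜ : Set α) :=
    (hg.equivImage _).trans (MeasurableEquiv.cast (by rw [hAc]) (by rw [hAc]))
  have he2 : ∀ y, (e2 y).1 = g y.1 := by
    intro y
    have : ∀ (S T : Set α) (h : S = T) (h1 : (S : Type _) = T) (h2) (z : S),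
        ((MeasurableEquiv.cast h1 h2 : S ≃ᵐ T) z).1 = z.1 := by
      intro S T h h1 h2 z
      subst h
      rfl
    exact this _ _ hAc.symm (by rw [hAc]) (by rw [hAc]) (hg.equivImage _ y)
  refine ⟨(MeasurableEquiv.sumCompl Ameas).symm.trans
    ((MeasurableEquiv.sumCongr e1 e2.symm).trans (MeasurableEquiv.sumCompl Bmeas)), fun x => ?_⟩
  by_cases hx : x ∈ A
  · left
    have : (MeasurableEquiv.sumCompl Ameas).symm x = Sum.inl ⟨x, hx⟩ := by
      rw [MeasurableEquiv.symm_apply_eq]; rfl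
    rw [MeasurableEquiv.trans_apply, this]
    rfl
  · right
    have : (MeasurableEquiv.sumCompl Ameas).symm x = Sum.inr ⟨x, hx⟩ := by
      rw [MeasurableEquiv.symm_apply_eq]; rfl
    rw [MeasurableEquiv.trans_apply, this]
    change g (e2.symm ⟨x, hx⟩).1 = x
    rw [← he2, MeasurableEquiv.apply_symm_apply]

end Pool.Agent.Lib.helper86
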